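import Pool.Agent.W610.HY.Stm

set_option autoImplicit false

namespace Pool.Agent.W726.HY.OUT

open Pool.Agent.W610.HY
open MeasureTheory Set Metric Filter Topology

noncomputable def gg (m : ℂ → ENNReal) (n : ℕ) (z : ℂ) : ℝ := (min (m z) (n : ENNReal)).toReal

lemma gg_ne_top (m : ℂ → ENNReal) (n : ℕ) (z : ℂ) : min (m z) (n : ENNReal) ≠ ⊤ :=
  ne_top_of_le_ne_top (ENNReal.natCast_ne_top n) (min_le_right _ _)

lemma gg_cont (m : ℂ → ENNReal) (hm : ContinuousOn m (sphere (0:ℂ) 1)) (n : ℕ) :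
    ContinuousOn (gg m n) (sphere (0:ℂ) 1) := by
  unfold gg
  exact ENNReal.continuousOn_toReal.comp (ContinuousOn.inf hm continuousOn_const)
    (fun z _ => gg_ne_top m n z)

lemma gg_mono (m : ℂ → ENNReal) (n : ℕ) (z : ℂ) : gg m n z ≤ gg m (n + 1) z := by
  unfold gg
  apply ENNReal.toReal_mono (gg_ne_top m (n + 1) z)
  apply min_le_min_left
  exact_mod_cast Nat.le_succ n

lemma gg_nonneg (m : ℂ → ENNReal) (n : ℕ) (z : ℂ) : 0 ≤ gg m n z := ENNReal.toReal_nonneg

lemma gg_zero (m : ℂ → ENNReal) (z : ℂ) : gg m 0 z = 0 := by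
  unfold gg
  simp

lemma gg_eq (m : ℂ → ENNReal) (n : ℕ) (z : ℂ) (h : m z ≠ ⊤) (hn : (m z).toReal ≤ n) :
    gg m n z = (m z).toReal := by
  unfold gg
  congr 1
  apply min_eq_left
  rw [← ENNReal.ofReal_toReal h, ← ENNReal.ofReal_natCast]
  exact ENNReal.ofReal_le_ofReal hn

lemma cnorm (θ : ℝ) : ‖circleMap 0 1 θ‖ = 1 := by
  rw [norm_circleMap_zero]; simp

lemma gg_cc (m : ℂ → ENNReal) (hm : ContinuousOn m (sphere (0:ℂ) 1)) (n : ℕ) :
    Continuous (fun θ : ℝ => gg m n (circleMap 0 1 θ)) :=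
  (gg_cont m hm n).comp_continuous (continuous_circleMap 0 1)
    (fun θ => circleMap_mem_sphere 0 zero_le_one θ)

lemma int_gg (m : ℂ → ENNReal) (hm : ContinuousOn m (sphere (0:ℂ) 1))
    (hi : (∫⁻ θ in Ioc (0:ℝ) (2 * Real.pi), m (circleMap 0 1 θ)) ≠ ⊤) (n : ℕ) :
    (∫ θ in (0:ℝ)..(2 * Real.pi), gg m n (circleMap 0 1 θ))
      ≤ (∫⁻ θ in Ioc (0:ℝ) (2 * Real.pi), m (circleMap 0 1 θ)).toReal := by
  rw [intervalIntegral.integral_of_le (by positivity),
    integral_eq_lintegral_of_nonneg_ae (Eventually.of_forall fun θ => gg_nonneg m n _)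
      (gg_cc m hm n).aestronglyMeasurable]
  apply ENNReal.toReal_mono hi
  apply lintegral_mono
  intro θ
  show ENNReal.ofReal (gg m n (circleMap 0 1 θ)) ≤ m (circleMap 0 1 θ)
  unfold gg
  rw [ENNReal.ofReal_toReal (gg_ne_top m n _)]
  exact min_le_left _ _

lemma re_mean (hMEAN : MEAN) (p : Polynomial ℂ) :
    (∫ θ in (0:ℝ)..(2 * Real.pi), (p.eval (circleMap 0 1 θ)).re)
      = 2 * Real.pi * (p.eval 0).re := by
  have h1 := (hMEAN (fun z => p.eval z) p.differentiable).1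
  have hc : Continuous (fun θ : ℝ => p.eval (circleMap 0 1 θ)) :=
    p.continuous.comp (continuous_circleMap 0 1)
  have h2 := Complex.reCLM.intervalIntegral_comp_comm
    (hc.intervalIntegrable (μ := volume) 0 (2 * Real.pi))
  simp only [Complex.reCLM_apply] at h2
  rw [h2, h1]
  have : (2 * (Real.pi : ℂ) * p.eval 0) = ((2 * Real.pi : ℝ) : ℂ) * p.eval 0 := by
    push_cast; ring
  rw [this, Complex.re_ofReal_mul]

theorem main (hPOLY : POLY) (hMEAN : MEAN) (hLIM : LIM) : Pool.Agent.W610.HY.OUT := by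
  intro m hm hi
  have hpi : (0:ℝ) < 2 * Real.pi := by positivity
  choose p hp0 hp1 using fun k : ℕ => hPOLY (fun z => gg m (k + 1) z - gg m k z)
    ((gg_cont m hm (k + 1)).sub (gg_cont m hm k)) ((1 / 2 : ℝ) ^ k) (by positivity)
  have hre : ∀ k (z : ℂ), ‖z‖ = 1 → 0 ≤ ((p k).eval z).re := by
    intro k z hz
    have h1 := (hp1 k z hz).1
    have h2 := gg_mono m k z
    linarith
  have hpc : ∀ k, Continuous (fun θ : ℝ => ((p k).eval (circleMap 0 1 θ)).re) := fun k =>
    Complex.continuous_re.comp ((p k).continuous.comp (continuous_circleMap 0 1))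
  have h0 : ∀ k, 0 ≤ ((p k).eval 0).re := by
    intro k
    have h1 := re_mean hMEAN (p k)
    have h2 : 0 ≤ ∫ θ in (0:ℝ)..(2 * Real.pi), ((p k).eval (circleMap 0 1 θ)).re :=
      intervalIntegral.integral_nonneg hpi.le fun θ _ => hre k _ (cnorm θ)
    rw [h1] at h2
    exact nonneg_of_mul_nonneg_right h2 hpi
  have hk : ∀ k, 2 * Real.pi * ((p k).eval 0).re
      ≤ (∫ θ in (0:ℝ)..(2 * Real.pi), gg m (k + 1) (circleMap 0 1 θ))
        - (∫ θ in (0:ℝ)..(2 * Real.pi), gg m k (circleMap 0 1 θ))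
        + 2 * Real.pi * (1 / 2 : ℝ) ^ k := by
    intro k
    rw [← re_mean hMEAN (p k)]
    have i1 := (gg_cc m hm (k + 1)).intervalIntegrable (μ := volume) 0 (2 * Real.pi)
    have i2 := (gg_cc m hm k).intervalIntegrable (μ := volume) 0 (2 * Real.pi)
    have e1 : (∫ θ in (0:ℝ)..(2 * Real.pi),
        ((gg m (k + 1) (circleMap 0 1 θ) - gg m k (circleMap 0 1 θ)) + (1 / 2 : ℝ) ^ k))
        = (∫ θ in (0:ℝ)..(2 * Real.pi), gg m (k + 1) (circleMap 0 1 θ))
        - (∫ θ in (0:ℝ)..(2 * Real.pi), gg m k (circleMap 0 1 θ))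
        + 2 * Real.pi * (1 / 2 : ℝ) ^ k := by
      rw [intervalIntegral.integral_add (i1.sub i2) intervalIntegrable_const,
        intervalIntegral.integral_sub i1 i2, intervalIntegral.integral_const]
      simp
    rw [← e1]
    apply intervalIntegral.integral_mono_on hpi.le
    · exact (hpc k).intervalIntegrable 0 (2 * Real.pi)
    · exact (i1.sub i2).add intervalIntegrable_const
    · intro θ _
      exact (hp1 k _ (cnorm θ)).2
  have hsum : ∀ n, 2 * Real.pi * ∑ k ∈ Finset.range n, ((p k).eval 0).re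
      ≤ (∫ θ in (0:ℝ)..(2 * Real.pi), gg m n (circleMap 0 1 θ))
        + 2 * Real.pi * ∑ k ∈ Finset.range n, (1 / 2 : ℝ) ^ k := by
    intro n
    induction n with
    | zero => simp [gg_zero]
    | succ n ih =>
      rw [Finset.sum_range_succ, Finset.sum_range_succ]
      have := hk n
      linarith
  have hgeo : ∀ n, ∑ k ∈ Finset.range n, (1 / 2 : ℝ) ^ k ≤ 2 := by
    intro n
    have h1 := Summable.sum_le_tsum (f := fun k : ℕ => (1 / 2 : ℝ) ^ k) (Finset.range n)
      (fun i _ => by positivity) summable_geometric_two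
    rwa [tsum_geometric_two] at h1
  have hS : Summable (fun k => ((p k).eval 0).re) := by
    refine summable_of_sum_range_le (c := ((∫⁻ θ in Ioc (0:ℝ) (2 * Real.pi),
      m (circleMap 0 1 θ)).toReal + 2 * Real.pi * 2) / (2 * Real.pi)) h0 ?_
    intro n
    rw [le_div_iff₀ hpi, mul_comm]
    have h1 := hsum n
    have h2 := int_gg m hm hi n
    have h3 := mul_le_mul_of_nonneg_left (hgeo n) hpi.le
    linarith
  obtain ⟨h, hmeas, hle, hne, hvan⟩ := hLIM p hp0 hre hS
  refine ⟨h, hmeas, ?_, hne, hvan⟩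
  have hmc : Continuous (fun θ : ℝ => m (circleMap 0 1 θ)) :=
    hm.comp_continuous (continuous_circleMap 0 1) (fun θ => circleMap_mem_sphere 0 zero_le_one θ)
  have htop := ae_lt_top hmc.measurable hi
  filter_upwards [hle, htop] with θ h1 h2
  refine ⟨h2.ne, ?_⟩
  obtain ⟨n, hn⟩ := exists_nat_ge (m (circleMap 0 1 θ)).toReal
  refine (h1 n).trans ?_
  unfold hh
  rw [Complex.norm_exp]
  apply Real.exp_le_exp.2
  rw [Complex.neg_re, Complex.re_sum, neg_le_neg_iff]
  have h3 : ∑ k ∈ Finset.range n, (gg m (k + 1) (circleMap 0 1 θ) - gg m k (circleMap 0 1 θ))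
      = (m (circleMap 0 1 θ)).toReal := by
    rw [Finset.sum_range_sub (fun k => gg m k (circleMap 0 1 θ)), gg_zero, sub_zero,
      gg_eq m n _ h2.ne hn]
  rw [← h3]
  exact Finset.sum_le_sum fun k _ => (hp1 k _ (cnorm θ)).1

end Pool.Agent.W726.HY.OUT

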